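import Mathlib
import Pool.Agent.Helper22.ETModel
import Pool.Agent.Helper8.UV.Defs
import Pool.Agent.Helper21.UV3.Model
import Pool.Agent.Helper21.UV4.Model
import Pool.Agent.Helper21.UV4.UpperQ
import Pool.Agent.Helper5.UV.UpperJ
import Pool.Agent.Helper53.TC5.Model
import Pool.Agent.Helper53.TC5.Lower5
import Pool.Agent.Helper53.TC5.Upper5
import Pool.Agent.Helper53.TC5.Small

/-!
# Exact Triangle by threshold circuits with unbounded weights and unbounded fan-in

The circuit accepts if the sum of the votes of its voters is positive; the votes are arbitrary real
numbers, so the weights in the top gate are arbitrary. The circuit may be random and has to be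
correct with probability at least `19/20` on every valid complete tripartite instance. It knows the
flags; the difficulty is in the weights. The classes of vertices are the residues modulo 3. Let
`1 ≤ d` and `(s + 6) * d ^ 2 ≤ 270` (so `d ≤ 6`), `L = ⌊log n⌋ + 1` and `n ≥ 4`. Then `n ^ 3` is at
most `2 ^ 32 * 100 ^ d` times the expected total price of the voters, where the price of a voter is

* `0` if it ignores the weights of one of the three sides, so arbitrary functions of any two of the
  three weight matrices (for example everything that can be computed with their products) are free;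
* the smallest of `√(a b c)`, `a b`, `b c`, `a c`, `n a`, `n b`, `n c` for a decision tree of any
  depth with `a`, `b`, `c` adaptive probes in the three sides on every path;
* `(B + D) ^ (3/2)` for a decision tree with `B` adaptive probes of weights, `D` sign queries
  `0 ≤ p (w)` on every path, with arbitrary real polynomials `p` of degree at most `d` in all the
  weights, and arbitrary real outputs, if at most `2 ^ (s * L)` sign queries are left in the whole
  tree on fixing one result at each probe node (at each node separately, even if two nodes probe the
  same cell); several sign queries may be asked at once. In particular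
  `m ^ (3/2)` for an arbitrary real function of the signs of `m ≤ n ^ s` polynomials, and
  `(B + D) ^ (3/2)` for a decision tree with `B` probes and `D ≤ s * L` adaptive sign queries;
* `(B + (s + 3) * L * D) ^ (3/2)` for a decision tree with `B` adaptive probes and `D` adaptive
  sign queries, at most `2 ^ (s * L)` of them different;
* `√k * W` for an arbitrary real function of `k` additive threshold gates
  `θ ≤ ∑ e ∈ K, g e (w e)`, where the `g e` are arbitrary real functions of single weights (for
  example arbitrary real linear forms in the bits of the weights), with together `W` wires.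

So, even if all functions of two of the three sides are free, a weighted threshold of arbitrary
functions of `m` polynomial threshold functions of degree `d ≤ 6` of the weights, with unbounded
weights and unbounded fan-in, needs `n ^ 3 / (2 ^ 32 * 100 ^ d * m ^ (3/2))` functions in
expectation, and a weighted threshold of additive threshold gates needs `n ^ 3 / (2 ^ 32 * 100)`
wires. (For `n = 3` there is only one triangle, and `1/2 - (x + y + w) ^ 2` is a sum of functions of
two weights; so `n ≥ 4` is needed.) The other four statements show that this is sharp in many
cases: `2 * n ^ 3` linear threshold gates with fan-in three, `2 ^ 9 * n ^ 3 / B ^ (3/2)` trees with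
`B` probes (for every `B` from `3` to `n ^ 2`), `2 * n ^ 2 / t` trees with `n ^ 2`, `n ^ 2` and `t`
probes in the three sides, or `2 ^ 9 * n ^ 3 / r ^ (3/2)` functions of
`k = O(r log n)` gates with together `k` wires are correct on all (tripartite) instances.

Idea of the proof: two triangles with one common edge are planted in a random instance; each of the
five weights has two possible values, so that there are sixteen instances; in eight of them exactly
one of the two triangles has the sum zero and in the other eight none. If all mixed third
differences of the sum of the votes along the two triangles vanish, then this sum satisfies a linear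
relation between the sixteen instances which contradicts the signs. So some voter has a non-zero
mixed third difference; a voter that ignores a side has none. The expected number of places where a
voter can have one is bounded by its price: for trees by the number of triangles read on a path
(Loomis and Whitney), for functions of additive gates by the inequality of Kolmogorov and Rogozin
for each gate and a weighted Loomis-Whitney inequality. For the sign queries every weight that does
not belong to the planted triangles is big with probability `1/10`, with a huge random value: the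
variables of the dominating monomial of the polynomial are read, again and again, until all the
variables of the dominating monomial are big; then, by an inequality of Remez for polynomials of
small degree, the answer does not depend on the small parts of the weights that have not been read,
except with a tiny probability.
-/

set_option autoImplicit false

namespace Pool.Agent.Results.MP_62fbe0_lc.ThresholdCircuits

open Pool.Agent.Helper22.ETModel Pool.Agent.Helper8.VT Pool.Agent.Helper8.UV
open Pool.Agent.Helper21.UV4 Pool.Agent.Helper53.TC5

/-- Exact Triangle by threshold circuits with unbounded weights and unbounded fan-in: the lower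
bound for random circuits, and four matching upper bounds. -/
theorem result :
    -- the lower bound
    (∀ n d s : ℕ, 4 ≤ n → 1 ≤ d → (s + 6) * d ^ 2 ≤ 270 →
      ∀ (Ω ι : Type) [Fintype Ω] [Nonempty Ω] [Fintype ι]
      (H : Ω → ι → Inst n → ℝ) (κ : Ω → ι → ℝ), (∀ ω r, Price5 d s (H ω r) (κ ω r)) →
      (∀ I : Inst n, I.Valid → Tripartite I → Decides H I) →
      (n : ℝ) ^ 3 ≤ 2 ^ 32 * 100 ^ d * ((∑ ω, ∑ r, κ ω r) / Fintype.card Ω)) ∧
    -- linear threshold gates with fan-in three
    (∀ n : ℕ, ∃ H : Fin (2 * n ^ 3) → Inst n → ℝ,
      (∀ r, IsBatch 1 0 1 1 (H r) ∧ IsJunta 1 3 (H r)) ∧ ∀ I : Inst n, 0 < ∑ r, H r I ↔ I.Yes) ∧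
    -- decision trees with `B` probes
    (∀ n B : ℕ, 3 ≤ B → B ≤ n ^ 2 → ∃ (N : ℕ) (H : Fin N → Inst n → ℝ),
      (N : ℝ) * (B : ℝ) ^ (3 / 2 : ℝ) ≤ 2 ^ 9 * (n : ℝ) ^ 3 ∧ (∀ r, IsBatch 1 B 0 0 (H r)) ∧
      ∀ I : Inst n, 0 < ∑ r, H r I ↔ I.Yes) ∧
    -- decision trees with `n ^ 2`, `n ^ 2` and `t` probes in the three sides
    (∀ n t : ℕ, 1 ≤ t → t ≤ n ^ 2 → ∃ (N : ℕ) (H : Fin N → Inst n → ℝ), N * t ≤ 2 * n ^ 2 ∧
      (∀ r, IsSides (n ^ 2) (n ^ 2) t (H r)) ∧
      ∀ I : Inst n, I.Valid → Tripartite I → (0 < ∑ r, H r I ↔ I.Yes)) ∧
    -- functions of many gates with together as many wires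
    (∀ n s : ℕ, 3 ≤ s → s ≤ n ^ 2 → ∃ (N : ℕ) (H : Fin N → Inst n → ℝ),
      (N : ℝ) * (s : ℝ) ^ (3 / 2 : ℝ) ≤ 2 ^ 9 * (n : ℝ) ^ 3 ∧
      (∀ r, IsJunta (s * (302 * (Nat.log 2 n + 1))) (s * (302 * (Nat.log 2 n + 1))) (H r)) ∧
      ∀ I : Inst n, 0 < ∑ r, H r I ↔ I.Yes) := by
  refine ⟨fun n d s hn hd hs Ω ι _ _ _ H κ hκ hdec =>
    lower5 (fun n hn Ω ι _ _ _ H κ h0 h1 hd => small5 n hn Ω ι H κ h0 h1 hd)
      n d s hn hd hs Ω ι H κ hκ hdec, ?_, ?_, upper5, Helper5.UV.juntaStatement⟩
  · intro n
    obtain ⟨H, h1, h2⟩ := Pool.Agent.Helper21.UV3.upper_gates3 n
    exact ⟨H, fun r => ⟨isBatch_of_isReader (h1 r).1 (by norm_num), (h1 r).2⟩, h2⟩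
  · intro n B hB hBn
    obtain ⟨N, H, h1, h2, h3⟩ := Helper5.UV.readerStatement n B hB hBn
    exact ⟨N, H, h1, fun r => isBatch_of_isReader
      (Pool.Agent.Helper21.UV3.isReader_of_isProbe 1 (h2 r)) (by norm_num), h3⟩

end Pool.Agent.Results.MP_62fbe0_lc.ThresholdCircuits
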